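import Pool.Agent.Run7.h109.G.HG2

/-!
# GHG (project GEN): the constants of Bateman and Horn for almost all constant terms

For almost all tuples of constant terms the constant cut at `y`, `log X ≤ y ≤ log^C X`, is bounded below and close to the constant cut at a
small power of `log X`.
-/

set_option autoImplicit false

namespace Run7.h109.G

open Finset Filter Topology Polynomial
open Run7.h285.S (Bx)
open Run7.h285.G (Gd nu SS Adm S_GHG)

lemma tendsto_log : Tendsto (fun X : ℕ => Real.log X) atTop atTop :=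
  Real.tendsto_log_atTop.comp tendsto_natCast_atTop_atTop

lemma ev_w (u W : ℕ) (hu : 1 ≤ u) : ∃ X₀ : ℕ, ∀ X : ℕ, X₀ ≤ X → W ≤ ⌊Real.log X ^ (1 / (u : ℝ))⌋₊ := by
  have hu0 : (0 : ℝ) < 1 / (u : ℝ) := by
    have : (0 : ℝ) < u := by exact_mod_cast hu
    positivity
  have h1 : Tendsto (fun X : ℕ => ⌊Real.log X ^ (1 / (u : ℝ))⌋₊) atTop atTop :=
    tendsto_nat_floor_atTop.comp ((tendsto_rpow_atTop hu0).comp tendsto_log)
  exact eventually_atTop.1 (h1.eventually_ge_atTop W)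

lemma ev_log (W : ℝ) : ∃ X₀ : ℕ, ∀ X : ℕ, X₀ ≤ X → W ≤ Real.log X :=
  eventually_atTop.1 (tendsto_log.eventually_ge_atTop W)

lemma ev_pow (C : ℕ) (K : ℝ) (hK : 0 < K) : ∃ X₀ : ℕ, ∀ X : ℕ, X₀ ≤ X → K * (Real.log X ^ C) ^ 2 ≤ X := by
  have h1 := (Real.isLittleO_pow_log_id_atTop (n := 2 * C)).comp_tendsto (tendsto_natCast_atTop_atTop (R := ℝ))
  have h2 := h1.bound (show (0 : ℝ) < 1 / K by positivity)
  obtain ⟨X₀, hX⟩ := eventually_atTop.1 h2
  refine ⟨X₀, fun X hX1 => ?_⟩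
  have h3 := hX X hX1
  simp only [Function.comp_apply, id_eq, Real.norm_eq_abs] at h3
  rw [Nat.abs_cast] at h3
  have h4 := (le_abs_self _).trans h3
  rw [← pow_mul, mul_comm C 2]
  calc K * Real.log X ^ (2 * C) ≤ K * (1 / K * X) := mul_le_mul_of_nonneg_left h4 hK.le
    _ = X := by field_simp

open Classical in
lemma few' {k : ℕ} (f : Fin k → ℤ[X]) (hf : ∀ l, Gd (f l)) (τ η : ℝ) (hτ : 0 < τ) (hη : 0 < η) :
    ∃ W : ℕ, 1 ≤ W ∧ p0 f ≤ W ∧ ∀ C : ℕ, ∃ X₀ : ℕ, ∀ X : ℕ, X₀ ≤ X → ∀ w : ℕ, W ≤ w → ∀ y : ℕ, (y : ℝ) ≤ Real.log X ^ C →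
      (#((Bx k X).filter (fun a => τ < |DD f a w y|)) : ℝ) ≤ η / 2 * (X : ℝ) ^ k := by
  set A : ℝ := 4 * 3 ^ k * (kap f + k : ℝ) ^ 2 / (τ ^ 2 * η) with hA
  have hA0 : 0 ≤ A := by positivity
  refine ⟨p0 f + ⌈A⌉₊ + 1, by omega, by omega, fun C => ?_⟩
  obtain ⟨X₀, hX⟩ := ev_pow C ((4 * 3 ^ k * (5 * k)) / (τ ^ 2 * η) + 1) (by positivity)
  refine ⟨X₀ + 1, fun X hX1 w hw y hy => ?_⟩
  have h1 := few f hf X w y (by omega) (by omega) (by omega) τ hτ
  refine h1.trans (mul_le_mul_of_nonneg_right ?_ (by positivity))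
  have hw0 : (0 : ℝ) < w := by
    have : 1 ≤ w := by omega
    exact_mod_cast this
  have hX0 : (0 : ℝ) < X := by
    have : 1 ≤ X := by omega
    exact_mod_cast this
  have hAw : A ≤ w := by
    have h2 : (⌈A⌉₊ : ℝ) ≤ w := by
      have : ⌈A⌉₊ ≤ w := by omega
      exact_mod_cast this
    exact (Nat.le_ceil A).trans h2
  have hXy : (4 * 3 ^ k * (5 * k)) / (τ ^ 2 * η) * (y : ℝ) ^ 2 ≤ X := by
    have h2 := hX X (by omega)
    have h3 : (y : ℝ) ^ 2 ≤ (Real.log X ^ C) ^ 2 := pow_le_pow_left₀ (Nat.cast_nonneg _) hy 2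
    have h4 : (0 : ℝ) ≤ (4 * 3 ^ k * (5 * k)) / (τ ^ 2 * η) := by positivity
    have h5 := mul_le_mul_of_nonneg_left h3 h4
    have h6 : (0 : ℝ) ≤ (Real.log X ^ C) ^ 2 := sq_nonneg _
    nlinarith
  have e1 : (3 : ℝ) ^ k * ((kap f + k : ℝ) ^ 2 / w) / τ ^ 2 ≤ η / 4 := by
    rw [hA, div_le_iff₀ (by positivity)] at hAw
    rw [div_le_iff₀ (by positivity), ← mul_div_assoc, div_le_iff₀ hw0]
    nlinarith
  have e2 : (3 : ℝ) ^ k * (5 * k * (y : ℝ) ^ 2 / X) / τ ^ 2 ≤ η / 4 := by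
    rw [div_mul_eq_mul_div, div_le_iff₀ (by positivity)] at hXy
    rw [div_le_iff₀ (by positivity), ← mul_div_assoc, div_le_iff₀ hX0]
    nlinarith
  have e3 : (3 : ℝ) ^ k * ((kap f + k : ℝ) ^ 2 / w + 5 * k * (y : ℝ) ^ 2 / X) / τ ^ 2 =
      (3 : ℝ) ^ k * ((kap f + k : ℝ) ^ 2 / w) / τ ^ 2 + (3 : ℝ) ^ k * (5 * k * (y : ℝ) ^ 2 / X) / τ ^ 2 := by ring
  rw [e3]
  linarith

/-- **GHG** -/
theorem ghg {k : ℕ} (f : Fin k → ℤ[X]) (hf : ∀ l, Gd (f l)) : S_GHG f := by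
  classical
  intro η hη
  obtain ⟨W1, hW1, hW1p, hF1⟩ := few' f hf (1 / 2) η (by norm_num) hη
  have hK0 : 0 ≤ K2 f := by unfold K2; positivity
  set w0 : ℕ := W1 + 2 * kap f + ⌈2 * K2 f⌉₊ with hw0
  have hw01 : 1 ≤ w0 := by omega
  have hw0r : (0 : ℝ) < w0 := by exact_mod_cast hw01
  have hw0K : K2 f / w0 ≤ 1 / 2 := by
    have h1 : 2 * K2 f ≤ w0 := by
      refine (Nat.le_ceil _).trans ?_
      have : ⌈2 * K2 f⌉₊ ≤ w0 := by omega
      exact_mod_cast this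
    rw [div_le_iff₀ hw0r]
    linarith
  set δ : ℝ := ∏ p ∈ (range (w0 + 1)).filter Nat.Prime, (1 / (p : ℝ)) with hδ
  have hδ0 : 0 < δ := by
    apply prod_pos
    intro p hp
    have : (0 : ℝ) < p := by exact_mod_cast (mem_filter.1 hp).2.pos
    positivity
  refine ⟨δ * Real.exp (-1), by positivity, fun ε1 hε1 u C hu => ?_⟩
  set τ : ℝ := min 1 ε1 / 8 with hτd
  have hm0 : 0 < min 1 ε1 := lt_min one_pos hε1
  have hτ0 : 0 < τ := by positivity
  have hτ1 : 8 * τ ≤ 1 := by rw [hτd]; linarith [min_le_left 1 ε1]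
  have hτε : 8 * τ ≤ ε1 := by rw [hτd]; linarith [min_le_right 1 ε1]
  obtain ⟨W2, hW2, hW2p, hF2⟩ := few' f hf τ η hτ0 hη
  obtain ⟨X1, hX1⟩ := hF1 C
  obtain ⟨X2, hX2⟩ := hF2 C
  obtain ⟨X3, hX3⟩ := ev_w u (W2 + 2 * kap f + ⌈K2 f / τ⌉₊) hu
  obtain ⟨X4, hX4⟩ := ev_log (w0 + 1)
  refine ⟨X1 + X2 + X3 + X4, fun X hX y hy1 hy2 => ?_⟩
  have g1 := hX1 X (by omega) w0 (by omega) y hy2
  set w : ℕ := ⌊Real.log X ^ (1 / (u : ℝ))⌋₊ with hw
  have g3 : W2 + 2 * kap f + ⌈K2 f / τ⌉₊ ≤ w := hX3 X (by omega)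
  have g2 := hX2 X (by omega) w (by omega) y hy2
  have g4 : (w0 : ℝ) + 1 ≤ Real.log X := hX4 X (by omega)
  have hlog1 : 1 ≤ Real.log X := by linarith
  have hw0y : w0 ≤ y := by
    have : (w0 : ℝ) ≤ y := by linarith
    exact_mod_cast this
  have hwy : w ≤ y := by
    have h1 : (w : ℝ) ≤ Real.log X ^ (1 / (u : ℝ)) := Nat.floor_le (Real.rpow_nonneg (by linarith) _)
    have h2 : Real.log X ^ (1 / (u : ℝ)) ≤ Real.log X ^ (1 : ℝ) := by
      apply Real.rpow_le_rpow_of_exponent_le hlog1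
      have : (1 : ℝ) ≤ u := by exact_mod_cast hu
      rw [div_le_one (by linarith)]
      exact this
    rw [Real.rpow_one] at h2
    have : (w : ℝ) ≤ y := by linarith
    exact_mod_cast this
  have hwr : (0 : ℝ) < w := by
    have : 1 ≤ w := by omega
    exact_mod_cast this
  have hwK : K2 f / w ≤ τ := by
    have h1 : K2 f / τ ≤ w := by
      refine (Nat.le_ceil _).trans ?_
      have : ⌈K2 f / τ⌉₊ ≤ w := by omega
      exact_mod_cast this
    rw [div_le_iff₀ hτ0] at h1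
    rw [div_le_iff₀ hwr]
    linarith
  refine ⟨(Bx k X).filter (fun a => 1 / 2 < |DD f a w0 y| ∨ τ < |DD f a w y|), filter_subset _ _, ?_, ?_⟩
  · rw [filter_or]
    calc ((#((Bx k X).filter (fun a => 1 / 2 < |DD f a w0 y|) ∪ (Bx k X).filter (fun a => τ < |DD f a w y|)) : ℕ) : ℝ)
        ≤ ((#((Bx k X).filter (fun a => 1 / 2 < |DD f a w0 y|)) + #((Bx k X).filter (fun a => τ < |DD f a w y|)) : ℕ) : ℝ) := by
          exact_mod_cast card_union_le _ _
      _ ≤ η / 2 * (X : ℝ) ^ k + η / 2 * (X : ℝ) ^ k := by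
          push_cast
          exact add_le_add g1 g2
      _ = _ := by ring
  · intro a ha hBad hadm
    rw [mem_filter] at hBad
    push Not at hBad
    obtain ⟨b1, b2⟩ := hBad ha
    constructor
    · obtain ⟨t, ht, ht2⟩ := SS_quot f hf a w0 y hw01 (by omega) (by omega) hw0y
      rw [ht]
      have h1 := SS_ge f a hadm w0
      apply mul_le_mul h1 _ (Real.exp_pos _).le (hδ0.le.trans h1)
      rw [Real.exp_le_exp]
      rw [abs_le] at ht2 b1
      linarith [ht2.1, b1.1]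
    · obtain ⟨t, ht, ht2⟩ := SS_quot f hf a w y (by omega) (by omega) (by omega) hwy
      have h1 := SS_ge f a hadm y
      have hpos : 0 < SS f a y := by
        refine lt_of_lt_of_le ?_ h1
        apply prod_pos
        intro p hp
        have : (0 : ℝ) < p := by exact_mod_cast (mem_filter.1 hp).2.pos
        positivity
      have hw' : SS f a w = SS f a y * Real.exp (-t) := by
        rw [ht, mul_assoc, ← Real.exp_add, add_neg_cancel, Real.exp_zero, mul_one]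
      have htτ : |t| ≤ 2 * τ := by
        have h3 : |t| ≤ |t - DD f a w y| + |DD f a w y| := by
          have := abs_add_le (t - DD f a w y) (DD f a w y)
          rwa [sub_add_cancel] at this
        linarith
      have h4 : |Real.exp (-t) - 1| ≤ 2 * |(-t)| := Real.abs_exp_sub_one_le (by rw [abs_neg]; linarith)
      rw [abs_neg] at h4
      have h5 : SS f a w - SS f a y = SS f a y * (Real.exp (-t) - 1) := by rw [hw']; ring
      rw [h5, abs_mul, abs_of_pos hpos, mul_comm]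
      apply mul_le_mul_of_nonneg_right _ hpos.le
      linarith

end Run7.h109.G

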