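import Pool.Agent.Run7.h285.G.Stm

/-!
# GHG (project GEN), part 1: counting in the box

The number of the residues modulo `p` at which no `f_l + a_l` vanishes is `mm f a p`; its mean over the box is `mb k p = p (1 - 1/p)^k` up
to a small error, and its values for different primes are almost uncorrelated.
-/

set_option autoImplicit false

namespace Run7.h109.G

open Finset Filter Topology Polynomial
open Run7.h285.S (Bx)
open Run7.h285.G (Gd nu SS Adm)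

/-! ### one variable -/

/-- the integers of an interval in a residue class -/
lemma cnt (X Q : ℕ) (hQ : 1 ≤ Q) (v : ℤ) :
    |(#((Icc (-(X : ℤ)) X).filter (fun x : ℤ => (Q : ℤ) ∣ x - v)) : ℝ) - (2 * X + 1) / Q| ≤ 1 := by
  have h0 : (0 : ℤ) < Q := by exact_mod_cast hQ
  have h1 := Int.Ioc_filter_modEq_card (-(X : ℤ) - 1) X h0 v
  have h2 : (Icc (-(X : ℤ)) X).filter (fun x : ℤ => (Q : ℤ) ∣ x - v) =
      (Ioc (-(X : ℤ) - 1) X).filter (fun x : ℤ => x ≡ v [ZMOD Q]) := by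
    ext x
    rw [mem_filter, mem_filter, mem_Icc, mem_Ioc, Int.modEq_comm, Int.modEq_iff_dvd]
    constructor
    · rintro ⟨⟨a, b⟩, c⟩; exact ⟨⟨by omega, b⟩, c⟩
    · rintro ⟨⟨a, b⟩, c⟩; exact ⟨⟨by omega, b⟩, c⟩
  rw [h2]
  have hpq : (0 : ℚ) < Q := by exact_mod_cast hQ
  have e1 := Int.floor_le (((X : ℤ) - v : ℚ) / ((Q : ℤ) : ℚ))
  have e1' := Int.lt_floor_add_one (((X : ℤ) - v : ℚ) / ((Q : ℤ) : ℚ))
  have e2 := Int.lt_floor_add_one (((-(X : ℤ) - 1 : ℤ) - v : ℚ) / ((Q : ℤ) : ℚ))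
  have e2' := Int.floor_le (((-(X : ℤ) - 1 : ℤ) - v : ℚ) / ((Q : ℤ) : ℚ))
  have e3 : ((X : ℚ) - v) / Q - ((-X - 1) - v) / Q = (2 * X + 1) / Q := by ring
  have h3 : (((#((Ioc (-(X : ℤ) - 1) X).filter (fun x : ℤ => x ≡ v [ZMOD Q])) : ℕ) : ℤ) : ℚ) ≤
      (2 * X + 1) / Q + 1 := by
    rw [h1, Int.cast_max, Int.cast_zero]
    apply max_le
    · push_cast at e1 e2 ⊢
      linarith
    · positivity
  have h3' : (2 * X + 1) / Q - 1 ≤
      (((#((Ioc (-(X : ℤ) - 1) X).filter (fun x : ℤ => x ≡ v [ZMOD Q])) : ℕ) : ℤ) : ℚ) := by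
    rw [h1, Int.cast_max, Int.cast_zero]
    refine le_trans ?_ (le_max_left _ _)
    push_cast at e1' e2' ⊢
    linarith
  have h4 : ((#((Ioc (-(X : ℤ) - 1) X).filter (fun x : ℤ => x ≡ v [ZMOD Q])) : ℚ) : ℝ) ≤
      (((2 * X + 1) / Q + 1 : ℚ) : ℝ) := by
    rw [Rat.cast_le]
    exact_mod_cast h3
  have h4' : (((2 * X + 1) / Q - 1 : ℚ) : ℝ) ≤
      ((#((Ioc (-(X : ℤ) - 1) X).filter (fun x : ℤ => x ≡ v [ZMOD Q])) : ℚ) : ℝ) := by
    rw [Rat.cast_le]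
    exact_mod_cast h3'
  push_cast at h4 h4'
  rw [abs_le]
  constructor
  · linarith
  · linarith

/-- the indicator function of `g(x) + c` not divisible by `p` -/
noncomputable def e (g : ℤ[X]) (p x : ℕ) (c : ℤ) : ℝ := if (p : ℤ) ∣ g.eval (x : ℤ) + c then 0 else 1

/-- the indicator function of a residue class -/
noncomputable def ic (Q : ℕ) (v c : ℤ) : ℝ := if (Q : ℤ) ∣ c - v then 1 else 0

lemma e_eq (g : ℤ[X]) (p x : ℕ) (c : ℤ) : e g p x c = 1 - ic p (-g.eval (x : ℤ)) c := by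
  unfold e ic
  rw [sub_neg_eq_add, add_comm]
  split_ifs <;> norm_num

lemma e_nonneg (g : ℤ[X]) (p x : ℕ) (c : ℤ) : 0 ≤ e g p x c := by
  unfold e; split_ifs <;> norm_num

lemma e_le (g : ℤ[X]) (p x : ℕ) (c : ℤ) : e g p x c ≤ 1 := by
  unfold e; split_ifs <;> norm_num

lemma sum_ic (X Q : ℕ) (hQ : 1 ≤ Q) (v : ℤ) :
    |∑ c ∈ Icc (-(X : ℤ)) X, ic Q v c - (2 * X + 1) / Q| ≤ 1 := by
  have h := cnt X Q hQ v
  have h1 : ∑ c ∈ Icc (-(X : ℤ)) X, ic Q v c =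
      (#((Icc (-(X : ℤ)) X).filter (fun x : ℤ => (Q : ℤ) ∣ x - v)) : ℝ) := by
    unfold ic
    rw [← sum_filter, sum_const, nsmul_eq_mul, mul_one]
  rw [h1]
  exact h

lemma card_I (X : ℕ) : ((#(Icc (-(X : ℤ)) X) : ℕ) : ℝ) = 2 * X + 1 := by
  rw [Int.card_Icc]
  have : ((X : ℤ) + 1 - -(X : ℤ)).toNat = 2 * X + 1 := by omega
  rw [this]
  push_cast
  ring

lemma s1 (X p : ℕ) (hp : 1 ≤ p) (g : ℤ[X]) (x : ℕ) :
    |∑ c ∈ Icc (-(X : ℤ)) X, e g p x c - (2 * X + 1) * (1 - 1 / (p : ℝ))| ≤ 1 := by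
  have h := sum_ic X p hp (-g.eval (x : ℤ))
  have h1 : ∑ c ∈ Icc (-(X : ℤ)) X, e g p x c - (2 * X + 1) * (1 - 1 / (p : ℝ)) =
      -(∑ c ∈ Icc (-(X : ℤ)) X, ic p (-g.eval (x : ℤ)) c - (2 * X + 1) / p) := by
    simp only [e_eq]
    rw [sum_sub_distrib, sum_const, nsmul_eq_mul, card_I]
    ring
  rw [h1, abs_neg]
  exact h

lemma ic_mul (p q : ℕ) (h : Nat.Coprime p q) (u v : ℤ) : ∃ w : ℤ, ∀ c, ic p u c * ic q v c = ic (p * q) w c := by
  obtain ⟨s, t, hst⟩ := Nat.isCoprime_iff_coprime.2 h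
  refine ⟨u * (t * q) + v * (s * p), fun c => ?_⟩
  have h1 : (p : ℤ) ∣ c - u ↔ (p : ℤ) ∣ c - (u * (t * q) + v * (s * p)) := by
    have : c - u = (c - (u * (t * q) + v * (s * p))) + p * (s * (v - u)) := by
      linear_combination u * hst
    rw [this]
    exact (Int.dvd_add_left (Dvd.intro _ rfl))
  have h2 : (q : ℤ) ∣ c - v ↔ (q : ℤ) ∣ c - (u * (t * q) + v * (s * p)) := by
    have : c - v = (c - (u * (t * q) + v * (s * p))) + q * (t * (u - v)) := by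
      linear_combination v * hst
    rw [this]
    exact (Int.dvd_add_left (Dvd.intro _ rfl))
  have h3 : ((p * q : ℕ) : ℤ) ∣ c - (u * (t * q) + v * (s * p)) ↔ (p : ℤ) ∣ c - u ∧ (q : ℤ) ∣ c - v := by
    rw [h1, h2]
    constructor
    · intro h
      push_cast at h
      exact ⟨dvd_trans (dvd_mul_right _ _) h, dvd_trans (dvd_mul_left _ _) h⟩
    · rintro ⟨ha, hb⟩
      push_cast
      exact (Nat.isCoprime_iff_coprime.2 h).mul_dvd ha hb
  unfold ic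
  by_cases ha : (p : ℤ) ∣ c - u
  · by_cases hb : (q : ℤ) ∣ c - v
    · rw [if_pos ha, if_pos hb, if_pos (h3.2 ⟨ha, hb⟩), one_mul]
    · rw [if_neg hb, if_neg (fun hc => hb (h3.1 hc).2), mul_zero]
  · rw [if_neg ha, if_neg (fun hc => ha (h3.1 hc).1), zero_mul]

lemma s2 (X p q : ℕ) (hp : 1 ≤ p) (hq : 1 ≤ q) (h : Nat.Coprime p q) (g : ℤ[X]) (x x' : ℕ) :
    |∑ c ∈ Icc (-(X : ℤ)) X, e g p x c * e g q x' c - (2 * X + 1) * ((1 - 1 / (p : ℝ)) * (1 - 1 / (q : ℝ)))| ≤ 3 := by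
  obtain ⟨w, hw⟩ := ic_mul p q h (-g.eval (x : ℤ)) (-g.eval (x' : ℤ))
  have h1 := sum_ic X p hp (-g.eval (x : ℤ))
  have h2 := sum_ic X q hq (-g.eval (x' : ℤ))
  have h3 := sum_ic X (p * q) (Nat.mul_pos hp hq) w
  have hp0 : (0 : ℝ) < p := by exact_mod_cast hp
  have hq0 : (0 : ℝ) < q := by exact_mod_cast hq
  have h4 : ∑ c ∈ Icc (-(X : ℤ)) X, e g p x c * e g q x' c - (2 * X + 1) * ((1 - 1 / (p : ℝ)) * (1 - 1 / (q : ℝ))) =
      -(∑ c ∈ Icc (-(X : ℤ)) X, ic p (-g.eval (x : ℤ)) c - (2 * X + 1) / p)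
      - (∑ c ∈ Icc (-(X : ℤ)) X, ic q (-g.eval (x' : ℤ)) c - (2 * X + 1) / q)
      + (∑ c ∈ Icc (-(X : ℤ)) X, ic (p * q) w c - (2 * X + 1) / ((p * q : ℕ) : ℝ)) := by
    have h5 : ∀ c, e g p x c * e g q x' c = 1 - ic p (-g.eval (x : ℤ)) c - ic q (-g.eval (x' : ℤ)) c + ic (p * q) w c := by
      intro c
      rw [e_eq, e_eq, ← hw]
      ring
    simp only [h5]
    rw [sum_add_distrib, sum_sub_distrib, sum_sub_distrib, sum_const, nsmul_eq_mul, card_I]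
    push_cast
    field_simp
    ring
  rw [h4]
  rw [abs_le] at h1 h2 h3 ⊢
  constructor
  · linarith [h1.1, h1.2, h2.1, h2.2, h3.1, h3.2]
  · linarith [h1.1, h1.2, h2.1, h2.2, h3.1, h3.2]

/-! ### products -/

lemma prod_close {k : ℕ} (x : Fin k → ℝ) (z B ε : ℝ) (hB : 0 ≤ B) (hx : ∀ l, |x l| ≤ B) (hz : |z| ≤ B)
    (he : ∀ l, |x l - z| ≤ ε) : B * |∏ l, x l - z ^ k| ≤ k * ε * B ^ k := by
  induction k with
  | zero => simp
  | succ k ih =>
    have h1 := ih (fun l => x l.succ) (fun l => hx _) (fun l => he _)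
    rw [Fin.prod_univ_succ, pow_succ]
    have h2 : x 0 * ∏ i : Fin k, x i.succ - z ^ k * z = x 0 * (∏ i : Fin k, x i.succ - z ^ k) + (x 0 - z) * z ^ k := by ring
    have hε : 0 ≤ ε := le_trans (abs_nonneg _) (he 0)
    have h3 : |z ^ k| ≤ B ^ k := by
      rw [abs_pow]
      exact pow_le_pow_left₀ (abs_nonneg _) hz k
    calc B * |x 0 * ∏ i : Fin k, x i.succ - z ^ k * z|
        ≤ B * (|x 0| * |∏ i : Fin k, x i.succ - z ^ k| + |x 0 - z| * |z ^ k|) := by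
          rw [h2, ← abs_mul, ← abs_mul]
          exact mul_le_mul_of_nonneg_left (abs_add_le _ _) hB
      _ = |x 0| * (B * |∏ i : Fin k, x i.succ - z ^ k|) + B * (|x 0 - z| * |z ^ k|) := by ring
      _ ≤ B * (k * ε * B ^ k) + B * (ε * B ^ k) := by
          apply add_le_add
          · exact mul_le_mul (hx 0) h1 (by positivity) hB
          · apply mul_le_mul_of_nonneg_left _ hB
            exact mul_le_mul (he 0) h3 (abs_nonneg _) hε
      _ = _ := by push_cast; ring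

/-! ### the number of the residues at which nothing vanishes -/

/-- the number of the residues modulo `p` at which no `f_l + a_l` vanishes -/
noncomputable def mm {k : ℕ} (f : Fin k → ℤ[X]) (a : Fin k → ℤ) (p : ℕ) : ℝ :=
  ∑ x ∈ range p, ∏ l, e (f l) p x (a l)

/-- its mean -/
noncomputable def mb (k p : ℕ) : ℝ := p * (1 - 1 / (p : ℝ)) ^ k

lemma mm_eq {k : ℕ} (f : Fin k → ℤ[X]) (a : Fin k → ℤ) (p : ℕ) : mm f a p = p - nu f a p := by
  classical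
  have h1 : (nu f a p : ℝ) = ∑ x ∈ range p, (1 - ∏ l, e (f l) p x (a l)) := by
    unfold nu
    rw [card_filter]
    push_cast
    apply sum_congr rfl
    intro x _
    split_ifs with h
    · obtain ⟨l, hl⟩ := h
      rw [prod_eq_zero (mem_univ l) (by unfold e; rw [if_pos hl]), sub_zero]
    · push Not at h
      rw [prod_eq_one (fun l _ => by unfold e; rw [if_neg (h l)]), sub_self]
  rw [h1, sum_sub_distrib, sum_const, card_range, nsmul_eq_mul, mul_one]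
  unfold mm
  ring

lemma mb_nonneg (k p : ℕ) (hp : 1 ≤ p) : 0 ≤ mb k p := by
  unfold mb
  have hp1 : (1 : ℝ) ≤ p := by exact_mod_cast hp
  have : 1 / (p : ℝ) ≤ 1 := by rw [div_le_one (by linarith)]; exact hp1
  have : 0 ≤ 1 - 1 / (p : ℝ) := by linarith
  positivity

lemma al_mem (p : ℕ) (hp : 1 ≤ p) : 0 ≤ 1 - 1 / (p : ℝ) ∧ 1 - 1 / (p : ℝ) ≤ 1 := by
  have hp1 : (1 : ℝ) ≤ p := by exact_mod_cast hp
  have h1 : 1 / (p : ℝ) ≤ 1 := by rw [div_le_one (by linarith)]; exact hp1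
  have h2 : 0 ≤ 1 / (p : ℝ) := by positivity
  constructor <;> linarith

lemma mb_le (k p : ℕ) (hp : 1 ≤ p) : mb k p ≤ p := by
  unfold mb
  obtain ⟨h1, h2⟩ := al_mem p hp
  have : (1 - 1 / (p : ℝ)) ^ k ≤ 1 := pow_le_one₀ h1 h2
  have hp0 : (0 : ℝ) ≤ p := Nat.cast_nonneg _
  nlinarith

lemma sum_mm {k : ℕ} (f : Fin k → ℤ[X]) (X p : ℕ) :
    ∑ a ∈ Bx k X, mm f a p = ∑ x ∈ range p, ∏ l, ∑ c ∈ Icc (-(X : ℤ)) X, e (f l) p x c := by
  unfold mm Bx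
  rw [sum_comm]
  apply sum_congr rfl
  intro x _
  rw [prod_univ_sum]

lemma sum_mm2 {k : ℕ} (f : Fin k → ℤ[X]) (X p q : ℕ) :
    ∑ a ∈ Bx k X, mm f a p * mm f a q =
      ∑ x ∈ range p, ∑ x' ∈ range q, ∏ l, ∑ c ∈ Icc (-(X : ℤ)) X, e (f l) p x c * e (f l) q x' c := by
  unfold mm Bx
  simp only [sum_mul_sum, ← prod_mul_distrib]
  rw [sum_comm]
  apply sum_congr rfl
  intro x _
  rw [sum_comm]
  apply sum_congr rfl
  intro x' _
  rw [prod_univ_sum]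

lemma card_Bx (k X : ℕ) : ((#(Bx k X) : ℕ) : ℝ) = (2 * X + 1) ^ k := by
  unfold Bx
  rw [Fintype.card_piFinset]
  push_cast
  rw [prod_congr rfl (fun _ _ => card_I X), prod_const, card_univ, Fintype.card_fin]

lemma abs_sum_e_le (g : ℤ[X]) (X p x : ℕ) : |∑ c ∈ Icc (-(X : ℤ)) X, e g p x c| ≤ 2 * X + 1 := by
  rw [abs_of_nonneg (sum_nonneg fun c _ => e_nonneg _ _ _ _)]
  calc ∑ c ∈ Icc (-(X : ℤ)) X, e g p x c ≤ ∑ c ∈ Icc (-(X : ℤ)) X, (1 : ℝ) := sum_le_sum fun c _ => e_le _ _ _ _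
    _ = 2 * X + 1 := by rw [sum_const, nsmul_eq_mul, mul_one, card_I]

lemma abs_sum_ee_le (g : ℤ[X]) (X p q x x' : ℕ) :
    |∑ c ∈ Icc (-(X : ℤ)) X, e g p x c * e g q x' c| ≤ 2 * X + 1 := by
  rw [abs_of_nonneg (sum_nonneg fun c _ => mul_nonneg (e_nonneg _ _ _ _) (e_nonneg _ _ _ _))]
  calc ∑ c ∈ Icc (-(X : ℤ)) X, e g p x c * e g q x' c ≤ ∑ c ∈ Icc (-(X : ℤ)) X, (1 : ℝ) :=
        sum_le_sum fun c _ => mul_le_one₀ (e_le _ _ _ _) (e_nonneg _ _ _ _) (e_le _ _ _ _)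
    _ = 2 * X + 1 := by rw [sum_const, nsmul_eq_mul, mul_one, card_I]

/-- the first moment -/
lemma mom1 {k : ℕ} (f : Fin k → ℤ[X]) (X p : ℕ) (hp : 1 ≤ p) :
    (2 * X + 1 : ℝ) * |∑ a ∈ Bx k X, mm f a p - (2 * X + 1) ^ k * mb k p| ≤ p * (k * 1 * (2 * X + 1) ^ k) := by
  set M : ℝ := 2 * X + 1 with hM
  have hM0 : 0 ≤ M := by positivity
  obtain ⟨h1, h2⟩ := al_mem p hp
  have h3 : ∑ a ∈ Bx k X, mm f a p - M ^ k * mb k p =
      ∑ x ∈ range p, (∏ l, ∑ c ∈ Icc (-(X : ℤ)) X, e (f l) p x c - (M * (1 - 1 / (p : ℝ))) ^ k) := by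
    rw [sum_mm, sum_sub_distrib, sum_const, card_range, nsmul_eq_mul, mul_pow]
    unfold mb
    ring
  have hz : |M * (1 - 1 / (p : ℝ))| ≤ M := by
    rw [abs_of_nonneg (mul_nonneg hM0 h1)]
    nlinarith
  calc M * |∑ a ∈ Bx k X, mm f a p - M ^ k * mb k p|
      ≤ M * ∑ x ∈ range p, |∏ l, ∑ c ∈ Icc (-(X : ℤ)) X, e (f l) p x c - (M * (1 - 1 / (p : ℝ))) ^ k| := by
        rw [h3]
        exact mul_le_mul_of_nonneg_left (abs_sum_le_sum_abs _ _) hM0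
    _ = ∑ x ∈ range p, M * |∏ l, ∑ c ∈ Icc (-(X : ℤ)) X, e (f l) p x c - (M * (1 - 1 / (p : ℝ))) ^ k| := mul_sum _ _ _
    _ ≤ ∑ _x ∈ range p, k * 1 * M ^ k := by
        apply sum_le_sum
        intro x _
        exact prod_close _ _ M 1 hM0 (fun l => abs_sum_e_le _ _ _ _) hz (fun l => s1 X p hp (f l) x)
    _ = _ := by rw [sum_const, card_range, nsmul_eq_mul]

/-- the second moment -/
lemma mom2 {k : ℕ} (f : Fin k → ℤ[X]) (X p q : ℕ) (hp : 1 ≤ p) (hq : 1 ≤ q) (h : Nat.Coprime p q) :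
    (2 * X + 1 : ℝ) * |∑ a ∈ Bx k X, mm f a p * mm f a q - (2 * X + 1) ^ k * (mb k p * mb k q)| ≤
      p * (q * (k * 3 * (2 * X + 1) ^ k)) := by
  set M : ℝ := 2 * X + 1 with hM
  have hM0 : 0 ≤ M := by positivity
  obtain ⟨h1, h2⟩ := al_mem p hp
  obtain ⟨h1', h2'⟩ := al_mem q hq
  have h3 : ∑ a ∈ Bx k X, mm f a p * mm f a q - M ^ k * (mb k p * mb k q) =
      ∑ x ∈ range p, ∑ x' ∈ range q, (∏ l, ∑ c ∈ Icc (-(X : ℤ)) X, e (f l) p x c * e (f l) q x' c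
        - (M * ((1 - 1 / (p : ℝ)) * (1 - 1 / (q : ℝ)))) ^ k) := by
    rw [sum_mm2]
    simp only [sum_sub_distrib]
    rw [sum_const, card_range, nsmul_eq_mul, sum_const, card_range, nsmul_eq_mul, mul_pow, mul_pow]
    unfold mb
    ring
  have hz : |M * ((1 - 1 / (p : ℝ)) * (1 - 1 / (q : ℝ)))| ≤ M := by
    rw [abs_of_nonneg (mul_nonneg hM0 (mul_nonneg h1 h1'))]
    have : (1 - 1 / (p : ℝ)) * (1 - 1 / (q : ℝ)) ≤ 1 := mul_le_one₀ h2 h1' h2'
    nlinarith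
  calc M * |∑ a ∈ Bx k X, mm f a p * mm f a q - M ^ k * (mb k p * mb k q)|
      ≤ M * ∑ x ∈ range p, ∑ x' ∈ range q, |∏ l, ∑ c ∈ Icc (-(X : ℤ)) X, e (f l) p x c * e (f l) q x' c
        - (M * ((1 - 1 / (p : ℝ)) * (1 - 1 / (q : ℝ)))) ^ k| := by
        rw [h3]
        apply mul_le_mul_of_nonneg_left _ hM0
        refine (abs_sum_le_sum_abs _ _).trans (sum_le_sum fun x _ => abs_sum_le_sum_abs _ _)
    _ = ∑ x ∈ range p, ∑ x' ∈ range q, M * |∏ l, ∑ c ∈ Icc (-(X : ℤ)) X, e (f l) p x c * e (f l) q x' c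
        - (M * ((1 - 1 / (p : ℝ)) * (1 - 1 / (q : ℝ)))) ^ k| := by simp only [mul_sum]
    _ ≤ ∑ _x ∈ range p, ∑ _x' ∈ range q, k * 3 * M ^ k := by
        apply sum_le_sum
        intro x _
        apply sum_le_sum
        intro x' _
        exact prod_close _ _ M 3 hM0 (fun l => abs_sum_ee_le _ _ _ _ _ _) hz (fun l => s2 X p q hp hq h (f l) x x')
    _ = _ := by
        rw [sum_const, card_range, nsmul_eq_mul, sum_const, card_range, nsmul_eq_mul]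

/-- the covariance -/
lemma cov {k : ℕ} (f : Fin k → ℤ[X]) (X p q : ℕ) (hp : 1 ≤ p) (hq : 1 ≤ q) (h : Nat.Coprime p q) :
    (2 * X + 1 : ℝ) * |∑ a ∈ Bx k X, (mm f a p - mb k p) * (mm f a q - mb k q)| ≤
      5 * k * (p * q) * (2 * X + 1) ^ k := by
  have h1 := mom1 f X p hp
  have h2 := mom1 f X q hq
  have h3 := mom2 f X p q hp hq h
  set M : ℝ := 2 * X + 1 with hM
  have hM0 : 0 ≤ M := by positivity
  have hb := mb_nonneg k p hp
  have hb' := mb_nonneg k q hq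
  have hc := mb_le k p hp
  have hc' := mb_le k q hq
  have hp0 : (0 : ℝ) ≤ p := Nat.cast_nonneg _
  have hq0 : (0 : ℝ) ≤ q := Nat.cast_nonneg _
  have h4 : ∑ a ∈ Bx k X, (mm f a p - mb k p) * (mm f a q - mb k q) =
      (∑ a ∈ Bx k X, mm f a p * mm f a q - M ^ k * (mb k p * mb k q))
      - mb k q * (∑ a ∈ Bx k X, mm f a p - M ^ k * mb k p)
      - mb k p * (∑ a ∈ Bx k X, mm f a q - M ^ k * mb k q) := by
    have h5 : ∀ a, (mm f a p - mb k p) * (mm f a q - mb k q) =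
        mm f a p * mm f a q - mb k q * mm f a p - mb k p * mm f a q + mb k p * mb k q := fun a => by ring
    simp only [h5]
    rw [sum_add_distrib, sum_sub_distrib, sum_sub_distrib, sum_const, nsmul_eq_mul, card_Bx, ← mul_sum, ← mul_sum]
    ring
  rw [h4]
  set A := ∑ a ∈ Bx k X, mm f a p * mm f a q - M ^ k * (mb k p * mb k q)
  set P := ∑ a ∈ Bx k X, mm f a p - M ^ k * mb k p
  set Q := ∑ a ∈ Bx k X, mm f a q - M ^ k * mb k q
  have h6 : |A - mb k q * P - mb k p * Q| ≤ |A| + mb k q * |P| + mb k p * |Q| := by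
    calc |A - mb k q * P - mb k p * Q| ≤ |A - mb k q * P| + |mb k p * Q| := abs_sub _ _
      _ ≤ |A| + |mb k q * P| + |mb k p * Q| := by
          have := abs_sub A (mb k q * P)
          linarith
      _ = _ := by rw [abs_mul, abs_mul, abs_of_nonneg hb, abs_of_nonneg hb']
  have h7 : mb k q * (M * |P|) ≤ q * (p * (k * 1 * M ^ k)) := mul_le_mul hc' h1 (by positivity) hq0
  have h8 : mb k p * (M * |Q|) ≤ p * (q * (k * 1 * M ^ k)) := mul_le_mul hc h2 (by positivity) hp0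
  calc M * |A - mb k q * P - mb k p * Q| ≤ M * (|A| + mb k q * |P| + mb k p * |Q|) :=
        mul_le_mul_of_nonneg_left h6 hM0
    _ = M * |A| + mb k q * (M * |P|) + mb k p * (M * |Q|) := by ring
    _ ≤ p * (q * (k * 3 * M ^ k)) + q * (p * (k * 1 * M ^ k)) + p * (q * (k * 1 * M ^ k)) := by linarith
    _ = _ := by ring

end Run7.h109.G
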