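import Pool.Agent.Run7.h109.G.HG1

/-!
# GHG (project GEN), part 2: the second moment of the sum over the primes, and the factors
-/

set_option autoImplicit false

namespace Run7.h109.G

open Finset Filter Topology Polynomial
open Run7.h285.S (Bx)
open Run7.h285.G (Gd nu SS Adm)

/-! ### sums over the primes in `(w, N]` -/

/-- the primes in `(w, N]` -/
def ps (w N : ℕ) : Finset ℕ := (Ioc w N).filter Nat.Prime

lemma mem_ps {w N p : ℕ} : p ∈ ps w N ↔ (w < p ∧ p ≤ N) ∧ p.Prime := by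
  unfold ps
  rw [mem_filter, mem_Ioc]

lemma sum_inv_sq (w N : ℕ) (hw : 1 ≤ w) : ∑ p ∈ ps w N, 1 / (p : ℝ) ^ 2 ≤ 1 / (w : ℝ) := by
  rcases le_total w N with h | h
  · have h1 := sum_Ioc_inv_sq_le_sub (α := ℝ) (k := w) (n := N) (by omega) h
    calc ∑ p ∈ ps w N, 1 / (p : ℝ) ^ 2 ≤ ∑ p ∈ Ioc w N, 1 / (p : ℝ) ^ 2 :=
          sum_le_sum_of_subset_of_nonneg (filter_subset _ _) (fun _ _ _ => by positivity)
      _ = ∑ p ∈ Ioc w N, ((p : ℝ) ^ 2)⁻¹ := by simp only [one_div]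
      _ ≤ (w : ℝ)⁻¹ - (N : ℝ)⁻¹ := h1
      _ ≤ 1 / w := by
          rw [one_div]
          have : (0 : ℝ) ≤ (N : ℝ)⁻¹ := by positivity
          linarith
  · have : ps w N = ∅ := by
      unfold ps
      rw [Ioc_eq_empty_of_le h, filter_empty]
    rw [this, sum_empty]
    positivity

lemma card_ps (w N : ℕ) : #(ps w N) ≤ N := by
  unfold ps
  refine (card_filter_le _ _).trans ?_
  rw [Nat.card_Ioc]
  omega

/-! ### the number of the roots -/

lemma root_le (g : ℤ[X]) (hg : Gd g) (c : ℤ) (p : ℕ) (hp : p.Prime) (hlc : g.leadingCoeff < p) :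
    #((range p).filter (fun x : ℕ => (p : ℤ) ∣ g.eval (x : ℤ) + c)) ≤ g.natDegree := by
  have : Fact p.Prime := ⟨hp⟩
  set h : (ZMod p)[X] := (g + C c).map (Int.castRingHom (ZMod p)) with hh
  have hdeg : (g + C c).natDegree = g.natDegree := natDegree_add_C
  have hco : h.coeff g.natDegree ≠ 0 := by
    rw [hh, coeff_map, coeff_add, coeff_C, if_neg (by have := hg.1; omega), add_zero]
    rw [eq_intCast, Ne, ZMod.intCast_zmod_eq_zero_iff_dvd]
    intro hd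
    have := Int.le_of_dvd hg.2 hd
    have h2 : g.coeff g.natDegree = g.leadingCoeff := rfl
    omega
  have hne : h ≠ 0 := fun h0 => hco (by rw [h0, coeff_zero])
  have h1 : h.natDegree ≤ g.natDegree := by
    rw [hh, ← hdeg]
    exact natDegree_map_le
  have h2 : #h.roots.toFinset ≤ g.natDegree :=
    (Multiset.toFinset_card_le _).trans ((card_roots' h).trans h1)
  refine le_trans ?_ h2
  apply card_le_card_of_injOn (fun x : ℕ => (x : ZMod p))
  · intro x hx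
    rw [mem_coe, mem_filter] at hx
    rw [mem_coe, Multiset.mem_toFinset, mem_roots hne, IsRoot.def, hh, eval_map]
    have h3 : (x : ZMod p) = Int.castRingHom (ZMod p) (x : ℤ) := by simp
    simp only
    rw [h3, eval₂_at_apply, eval_add, eval_C, eq_intCast, ZMod.intCast_zmod_eq_zero_iff_dvd]
    exact hx.2
  · intro x hx y hy hxy
    rw [mem_coe, mem_filter, mem_range] at hx hy
    simp only at hxy
    rw [ZMod.natCast_eq_natCast_iff] at hxy
    exact Nat.ModEq.eq_of_lt_of_lt hxy hx.1 hy.1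

/-- the sum of the degrees -/
def kap {k : ℕ} (f : Fin k → ℤ[X]) : ℕ := ∑ l, (f l).natDegree

/-- a bound for the primes below which something may go wrong -/
def p0 {k : ℕ} (f : Fin k → ℤ[X]) : ℕ := ∑ l, (f l).leadingCoeff.toNat

lemma nu_le {k : ℕ} (f : Fin k → ℤ[X]) (hf : ∀ l, Gd (f l)) (a : Fin k → ℤ) (p : ℕ) (hp : p.Prime) (h : p0 f < p) :
    nu f a p ≤ kap f := by
  classical
  have h1 : nu f a p ≤ #(univ.biUnion fun l => (range p).filter (fun x : ℕ => (p : ℤ) ∣ (f l).eval (x : ℤ) + a l)) := by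
    unfold nu
    apply card_le_card
    intro x hx
    rw [mem_filter] at hx
    obtain ⟨h1, l, h2⟩ := hx
    rw [mem_biUnion]
    exact ⟨l, mem_univ _, mem_filter.2 ⟨h1, h2⟩⟩
  refine h1.trans (card_biUnion_le.trans ?_)
  unfold kap
  apply sum_le_sum
  intro l _
  apply root_le (f l) (hf l) (a l) p hp
  have h3 : (f l).leadingCoeff.toNat ≤ p0 f := by
    unfold p0
    exact single_le_sum (f := fun l => (f l).leadingCoeff.toNat) (fun _ _ => Nat.zero_le _) (mem_univ l)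
  have h4 : (f l).leadingCoeff ≤ ((f l).leadingCoeff.toNat : ℤ) := Int.self_le_toNat _
  have h5 : ((f l).leadingCoeff.toNat : ℤ) < (p : ℤ) := by exact_mod_cast lt_of_le_of_lt h3 h
  omega

/-! ### the mean -/

lemma mb_close (k p : ℕ) (hp : 1 ≤ p) : 0 ≤ (k : ℝ) - p + mb k p ∧ (k : ℝ) - p + mb k p ≤ (k : ℝ) ^ 2 / p := by
  have hp0 : (0 : ℝ) < p := by exact_mod_cast hp
  obtain ⟨h1, h2⟩ := al_mem p hp
  have hk0 : (0 : ℝ) ≤ k := Nat.cast_nonneg _
  unfold mb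
  constructor
  · have h3 := one_add_mul_le_pow (a := -(1 / (p : ℝ))) (by linarith) k
    have h4 : (1 + -(1 / (p : ℝ))) = 1 - 1 / p := by ring
    rw [h4] at h3
    have h5 := mul_le_mul_of_nonneg_left h3 hp0.le
    have h6 : (p : ℝ) * (1 + k * -(1 / (p : ℝ))) = p - k := by field_simp; ring
    linarith
  · set t : ℝ := (k : ℝ) / p with ht
    have ht0 : 0 ≤ t := by positivity
    have h30 : 0 ≤ 1 / (p : ℝ) := by positivity
    have h3 := one_add_mul_le_pow (a := (1 / (p : ℝ))) (by linarith) k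
    have h4 : (1 - 1 / (p : ℝ)) ^ k * (1 + 1 / (p : ℝ)) ^ k ≤ 1 := by
      rw [← mul_pow]
      apply pow_le_one₀
      · exact mul_nonneg h1 (by positivity)
      · have : (1 - 1 / (p : ℝ)) * (1 + 1 / p) = 1 - (1 / (p : ℝ)) ^ 2 := by ring
        rw [this]
        have : 0 ≤ (1 / (p : ℝ)) ^ 2 := by positivity
        linarith
    have h5 : (1 - 1 / (p : ℝ)) ^ k * (1 + t) ≤ 1 := by
      have h6 : 1 + t ≤ (1 + 1 / (p : ℝ)) ^ k := by
        have : t = k * (1 / (p : ℝ)) := by rw [ht]; ring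
        rw [this]; exact h3
      exact le_trans (mul_le_mul_of_nonneg_left h6 (pow_nonneg h1 k)) h4
    have h6 : (1 - 1 / (p : ℝ)) ^ k ≤ 1 - t + t ^ 2 := by
      have h7 : (1 - 1 / (p : ℝ)) ^ k ≤ 1 / (1 + t) := by
        rw [le_div_iff₀ (by linarith)]
        exact h5
      refine h7.trans ?_
      rw [div_le_iff₀ (by linarith)]
      nlinarith [pow_nonneg ht0 3]
    have h8 := mul_le_mul_of_nonneg_left h6 hp0.le
    have h9 : (p : ℝ) * (1 - t + t ^ 2) = p - k + (k : ℝ) ^ 2 / p := by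
      rw [ht]; field_simp
    linarith

/-! ### the sum over the primes -/

/-- the sum over the primes -/
noncomputable def DD {k : ℕ} (f : Fin k → ℤ[X]) (a : Fin k → ℤ) (w N : ℕ) : ℝ :=
  ∑ p ∈ ps w N, (mm f a p - mb k p) / p

lemma dev_le {k : ℕ} (f : Fin k → ℤ[X]) (hf : ∀ l, Gd (f l)) (a : Fin k → ℤ) (p : ℕ) (hp : p.Prime) (h : p0 f < p) :
    |mm f a p - mb k p| ≤ kap f + k := by
  have h1 := nu_le f hf a p hp h
  have h2 : (nu f a p : ℝ) ≤ kap f := by exact_mod_cast h1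
  have h3 : (0 : ℝ) ≤ nu f a p := Nat.cast_nonneg _
  obtain ⟨h4, h5⟩ := mb_close k p hp.one_lt.le
  have h6 : (0 : ℝ) ≤ k := Nat.cast_nonneg _
  have h8 : (0 : ℝ) ≤ kap f := Nat.cast_nonneg _
  have h7 := mb_le k p hp.one_lt.le
  rw [mm_eq, abs_le]
  constructor
  · linarith
  · linarith

/-- the second moment -/
lemma mom {k : ℕ} (f : Fin k → ℤ[X]) (hf : ∀ l, Gd (f l)) (X w N : ℕ) (hw : 1 ≤ w) (h : p0 f ≤ w) :
    (2 * X + 1 : ℝ) * ∑ a ∈ Bx k X, DD f a w N ^ 2 ≤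
      (2 * X + 1 : ℝ) ^ k * ((kap f + k : ℝ) ^ 2 * (2 * X + 1) / w + 5 * k * N ^ 2) := by
  set M : ℝ := 2 * X + 1 with hM
  have hM0 : 0 ≤ M := by positivity
  have hw0 : (0 : ℝ) < w := by exact_mod_cast hw
  have h1 : ∑ a ∈ Bx k X, DD f a w N ^ 2 =
      ∑ p ∈ ps w N, ∑ q ∈ ps w N, (1 / ((p : ℝ) * q)) * ∑ a ∈ Bx k X, (mm f a p - mb k p) * (mm f a q - mb k q) := by
    unfold DD
    simp only [sq, sum_mul_sum]
    rw [sum_comm]
    apply sum_congr rfl
    intro p _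
    rw [sum_comm]
    apply sum_congr rfl
    intro q _
    rw [mul_sum]
    apply sum_congr rfl
    intro a _
    ring
  have h2 : ∀ p ∈ ps w N, ∀ q ∈ ps w N,
      M * ((1 / ((p : ℝ) * q)) * ∑ a ∈ Bx k X, (mm f a p - mb k p) * (mm f a q - mb k q)) ≤
        (if p = q then M * ((kap f + k : ℝ) ^ 2 * M ^ k) * (1 / (p : ℝ) ^ 2) else 0) + 5 * k * M ^ k := by
    intro p hp q hq
    obtain ⟨⟨hp1, _⟩, hp2⟩ := mem_ps.1 hp
    obtain ⟨⟨hq1, _⟩, hq2⟩ := mem_ps.1 hq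
    have hp0 : (0 : ℝ) < p := by exact_mod_cast hp2.pos
    have hq0 : (0 : ℝ) < q := by exact_mod_cast hq2.pos
    by_cases hpq : p = q
    · rw [if_pos hpq, ← hpq]
      have h3 : ∑ a ∈ Bx k X, (mm f a p - mb k p) * (mm f a p - mb k p) ≤ (kap f + k : ℝ) ^ 2 * M ^ k := by
        calc ∑ a ∈ Bx k X, (mm f a p - mb k p) * (mm f a p - mb k p) ≤ ∑ a ∈ Bx k X, (kap f + k : ℝ) ^ 2 := by
              apply sum_le_sum
              intro a _
              have h4 := dev_le f hf a p hp2 (by omega)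
              rw [← sq, ← sq_abs]
              exact pow_le_pow_left₀ (abs_nonneg _) h4 2
          _ = _ := by rw [sum_const, nsmul_eq_mul, card_Bx, mul_comm]
      have h4 : (0 : ℝ) ≤ 5 * k * M ^ k := by positivity
      have h5 : M * ((1 / ((p : ℝ) * p)) * ∑ a ∈ Bx k X, (mm f a p - mb k p) * (mm f a p - mb k p)) ≤
          M * ((1 / ((p : ℝ) * p)) * ((kap f + k : ℝ) ^ 2 * M ^ k)) :=
        mul_le_mul_of_nonneg_left (mul_le_mul_of_nonneg_left h3 (by positivity)) hM0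
      have h6 : M * ((1 / ((p : ℝ) * p)) * ((kap f + k : ℝ) ^ 2 * M ^ k)) =
          M * ((kap f + k : ℝ) ^ 2 * M ^ k) * (1 / (p : ℝ) ^ 2) := by
        rw [sq (p : ℝ)]; ring
      linarith
    · rw [if_neg hpq, zero_add]
      have h3 := cov f X p q hp2.one_lt.le hq2.one_lt.le ((Nat.coprime_primes hp2 hq2).2 hpq)
      rw [← hM] at h3
      have h4 := le_abs_self (∑ a ∈ Bx k X, (mm f a p - mb k p) * (mm f a q - mb k q))
      have h5 : M * ∑ a ∈ Bx k X, (mm f a p - mb k p) * (mm f a q - mb k q) ≤ 5 * k * (p * q) * M ^ k :=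
        (mul_le_mul_of_nonneg_left h4 hM0).trans h3
      calc M * ((1 / ((p : ℝ) * q)) * ∑ a ∈ Bx k X, (mm f a p - mb k p) * (mm f a q - mb k q))
          = (1 / ((p : ℝ) * q)) * (M * ∑ a ∈ Bx k X, (mm f a p - mb k p) * (mm f a q - mb k q)) := by ring
        _ ≤ (1 / ((p : ℝ) * q)) * (5 * k * (p * q) * M ^ k) := mul_le_mul_of_nonneg_left h5 (by positivity)
        _ = _ := by field_simp
  rw [h1]
  calc M * ∑ p ∈ ps w N, ∑ q ∈ ps w N, (1 / ((p : ℝ) * q)) * ∑ a ∈ Bx k X, (mm f a p - mb k p) * (mm f a q - mb k q)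
      = ∑ p ∈ ps w N, ∑ q ∈ ps w N, M * ((1 / ((p : ℝ) * q)) *
          ∑ a ∈ Bx k X, (mm f a p - mb k p) * (mm f a q - mb k q)) := by
        rw [mul_sum]
        apply sum_congr rfl
        intro p _
        rw [mul_sum]
    _ ≤ ∑ p ∈ ps w N, ∑ q ∈ ps w N,
        ((if p = q then M * ((kap f + k : ℝ) ^ 2 * M ^ k) * (1 / (p : ℝ) ^ 2) else 0) + 5 * k * M ^ k) :=
        sum_le_sum fun p hp => sum_le_sum fun q hq => h2 p hp q hq
    _ = M * ((kap f + k : ℝ) ^ 2 * M ^ k) * ∑ p ∈ ps w N, (1 / (p : ℝ) ^ 2) +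
        #(ps w N) * (#(ps w N) * (5 * k * M ^ k)) := by
        simp only [sum_add_distrib, sum_const, nsmul_eq_mul, sum_ite_eq]
        rw [mul_sum]
        congr 1
        apply sum_congr rfl
        intro p hp
        rw [if_pos hp]
    _ ≤ M * ((kap f + k : ℝ) ^ 2 * M ^ k) * (1 / w) + N * (N * (5 * k * M ^ k)) := by
        apply add_le_add
        · exact mul_le_mul_of_nonneg_left (sum_inv_sq w N hw) (by positivity)
        · have h3 : (#(ps w N) : ℝ) ≤ N := by exact_mod_cast card_ps w N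
          have h4 : (0 : ℝ) ≤ #(ps w N) := Nat.cast_nonneg _
          apply mul_le_mul h3 _ (by positivity) (Nat.cast_nonneg _)
          exact mul_le_mul_of_nonneg_right h3 (by positivity)
    _ = _ := by ring

/-- few tuples have a large sum -/
lemma few {k : ℕ} (f : Fin k → ℤ[X]) (hf : ∀ l, Gd (f l)) (X w N : ℕ) (hX : 1 ≤ X) (hw : 1 ≤ w) (h : p0 f ≤ w)
    (τ : ℝ) (hτ : 0 < τ) [DecidablePred fun a : Fin k → ℤ => τ < |DD f a w N|] :
    (#((Bx k X).filter (fun a => τ < |DD f a w N|)) : ℝ) ≤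
      (3 : ℝ) ^ k * ((kap f + k : ℝ) ^ 2 / w + 5 * k * N ^ 2 / X) / τ ^ 2 * X ^ k := by
  have h1 := mom f hf X w N hw h
  set S := (Bx k X).filter (fun a => τ < |DD f a w N|) with hS
  have hX1 : (1 : ℝ) ≤ X := by exact_mod_cast hX
  have hX0 : (0 : ℝ) < X := by linarith
  have hw0 : (0 : ℝ) < w := by exact_mod_cast hw
  set M : ℝ := 2 * X + 1 with hM
  have hM0 : 0 < M := by positivity
  have h2 : τ ^ 2 * #S ≤ ∑ a ∈ Bx k X, DD f a w N ^ 2 := by
    calc τ ^ 2 * #S = ∑ _a ∈ S, τ ^ 2 := by rw [sum_const, nsmul_eq_mul, mul_comm]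
      _ ≤ ∑ a ∈ S, DD f a w N ^ 2 := by
          apply sum_le_sum
          intro a ha
          rw [← sq_abs (DD f a w N)]
          exact pow_le_pow_left₀ hτ.le (mem_filter.1 ha).2.le 2
      _ ≤ _ := sum_le_sum_of_subset_of_nonneg (filter_subset _ _) (fun _ _ _ => sq_nonneg _)
  have h3 : M * (τ ^ 2 * #S) ≤ M ^ k * ((kap f + k : ℝ) ^ 2 * M / w + 5 * k * N ^ 2) :=
    (mul_le_mul_of_nonneg_left h2 hM0.le).trans h1
  have h4 : M ^ k ≤ (3 : ℝ) ^ k * X ^ k := by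
    rw [← mul_pow]
    apply pow_le_pow_left₀ hM0.le
    rw [hM]; linarith
  have h5 : τ ^ 2 * #S ≤ M ^ k * ((kap f + k : ℝ) ^ 2 / w + 5 * k * N ^ 2 / M) := by
    have h6 : M * (M ^ k * ((kap f + k : ℝ) ^ 2 / w + 5 * k * N ^ 2 / M)) =
        M ^ k * ((kap f + k : ℝ) ^ 2 * M / w + 5 * k * N ^ 2) := by
      field_simp
    exact le_of_mul_le_mul_left (by rw [h6]; exact h3) hM0
  have h7 : (5 : ℝ) * k * N ^ 2 / M ≤ 5 * k * N ^ 2 / X := by
    apply div_le_div_of_nonneg_left (by positivity) hX0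
    rw [hM]; linarith
  have h8 : τ ^ 2 * #S ≤ ((3 : ℝ) ^ k * X ^ k) * ((kap f + k : ℝ) ^ 2 / w + 5 * k * N ^ 2 / X) := by
    refine h5.trans ?_
    apply mul_le_mul h4 _ (by positivity) (by positivity)
    linarith
  have h9 : (3 : ℝ) ^ k * ((kap f + k : ℝ) ^ 2 / w + 5 * k * N ^ 2 / X) / τ ^ 2 * X ^ k =
      (((3 : ℝ) ^ k * X ^ k) * ((kap f + k : ℝ) ^ 2 / w + 5 * k * N ^ 2 / X)) / τ ^ 2 := by ring
  rw [h9, le_div_iff₀ (by positivity)]
  linarith

/-! ### the factors -/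

lemma log_low (x : ℝ) (h0 : 0 ≤ x) (h1 : x ≤ 1 / 2) : -x - 2 * x ^ 2 ≤ Real.log (1 - x) := by
  have h2 : 0 < 1 - x := by linarith
  have h3 := Real.one_sub_inv_le_log_of_pos h2
  refine le_trans ?_ h3
  have h4 : (1 - x)⁻¹ ≤ 1 + x + 2 * x ^ 2 := by
    rw [inv_le_iff_one_le_mul₀ h2]
    nlinarith [mul_nonneg h0 h0, mul_nonneg (mul_nonneg h0 h0) (by linarith : 0 ≤ 1 - 2 * x)]
  linarith

lemma log_up (x : ℝ) (h1 : x < 1) : Real.log (1 - x) ≤ -x := by
  have := Real.log_le_sub_one_of_pos (by linarith : 0 < 1 - x)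
  linarith

/-- the constant of the error terms -/
noncomputable def K2 {k : ℕ} (f : Fin k → ℤ[X]) : ℝ := 2 * (kap f : ℝ) ^ 2 + 2 * k + (k : ℝ) ^ 2

/-- a factor of the constant -/
noncomputable def fac {k : ℕ} (f : Fin k → ℤ[X]) (a : Fin k → ℤ) (p : ℕ) : ℝ :=
  (1 - (nu f a p : ℝ) / p) / (1 - 1 / (p : ℝ)) ^ k

lemma fac_bound {k : ℕ} (f : Fin k → ℤ[X]) (hf : ∀ l, Gd (f l)) (a : Fin k → ℤ) (p : ℕ) (hp : p.Prime)
    (h : p0 f < p) (h2 : 2 * kap f ≤ p) :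
    0 < fac f a p ∧ |Real.log (fac f a p) - (mm f a p - mb k p) / p| ≤ K2 f / (p : ℝ) ^ 2 := by
  have hp2 : (2 : ℝ) ≤ p := by exact_mod_cast hp.two_le
  have hp0 : (0 : ℝ) < p := by linarith
  have hν : (nu f a p : ℝ) ≤ kap f := by exact_mod_cast nu_le f hf a p hp h
  have hν0 : (0 : ℝ) ≤ nu f a p := Nat.cast_nonneg _
  have hκ : 2 * (kap f : ℝ) ≤ p := by exact_mod_cast h2
  have hκ0 : (0 : ℝ) ≤ kap f := Nat.cast_nonneg _
  have hk0 : (0 : ℝ) ≤ k := Nat.cast_nonneg _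
  have hx0 : 0 ≤ (nu f a p : ℝ) / p := by positivity
  have hx1 : (nu f a p : ℝ) / p ≤ 1 / 2 := by
    rw [div_le_iff₀ hp0]; linarith
  have hy0 : 0 ≤ 1 / (p : ℝ) := by positivity
  have hy1 : 1 / (p : ℝ) ≤ 1 / 2 := one_div_le_one_div_of_le (by norm_num) hp2
  have hpos1 : 0 < 1 - (nu f a p : ℝ) / p := by linarith
  have hpos2 : 0 < 1 - 1 / (p : ℝ) := by linarith
  have hpos : 0 < fac f a p := by
    unfold fac
    positivity
  refine ⟨hpos, ?_⟩
  have hlog : Real.log (fac f a p) = Real.log (1 - (nu f a p : ℝ) / p) - k * Real.log (1 - 1 / (p : ℝ)) := by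
    unfold fac
    rw [Real.log_div hpos1.ne' (pow_ne_zero _ hpos2.ne'), Real.log_pow]
  have a1 := log_low _ hx0 hx1
  have a2 := log_up _ (by linarith : (nu f a p : ℝ) / p < 1)
  have b1 := log_low _ hy0 hy1
  have b2 := log_up _ (by linarith : 1 / (p : ℝ) < 1)
  have b1' := mul_le_mul_of_nonneg_left b1 hk0
  have b2' := mul_le_mul_of_nonneg_left b2 hk0
  obtain ⟨c1, c2⟩ := mb_close k p hp.one_lt.le
  have hx2 : ((nu f a p : ℝ) / p) ^ 2 ≤ (kap f : ℝ) ^ 2 / (p : ℝ) ^ 2 := by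
    rw [div_pow]
    apply div_le_div_of_nonneg_right _ (by positivity)
    exact pow_le_pow_left₀ hν0 hν 2
  have c3 : 0 ≤ ((k : ℝ) - p + mb k p) / p := div_nonneg c1 hp0.le
  have c4 : ((k : ℝ) - p + mb k p) / p ≤ (k : ℝ) ^ 2 / (p : ℝ) ^ 2 := by
    rw [sq (p : ℝ), ← div_div]
    exact div_le_div_of_nonneg_right c2 hp0.le
  have d1 : (mm f a p - mb k p) / p = (k : ℝ) * (1 / p) - (nu f a p : ℝ) / p - ((k : ℝ) - p + mb k p) / p := by
    rw [mm_eq]
    field_simp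
    ring
  have d2 : K2 f / (p : ℝ) ^ 2 = 2 * ((kap f : ℝ) ^ 2 / (p : ℝ) ^ 2) + 2 * (k * (1 / (p : ℝ)) ^ 2) + (k : ℝ) ^ 2 / (p : ℝ) ^ 2 := by
    unfold K2
    field_simp
  have e1 : 0 ≤ (kap f : ℝ) ^ 2 / (p : ℝ) ^ 2 := by positivity
  have e2 : 0 ≤ k * (1 / (p : ℝ)) ^ 2 := by positivity
  have e3 : 0 ≤ (k : ℝ) ^ 2 / (p : ℝ) ^ 2 := by positivity
  rw [hlog, d1, d2, abs_le]
  constructor
  · nlinarith
  · nlinarith

lemma SS_eq {k : ℕ} (f : Fin k → ℤ[X]) (a : Fin k → ℤ) (N : ℕ) :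
    SS f a N = ∏ p ∈ (range (N + 1)).filter Nat.Prime, fac f a p := rfl

lemma SS_split {k : ℕ} (f : Fin k → ℤ[X]) (a : Fin k → ℤ) (w N : ℕ) (h : w ≤ N) :
    SS f a N = SS f a w * ∏ p ∈ ps w N, fac f a p := by
  rw [SS_eq, SS_eq, ← prod_union]
  · congr 1
    ext p
    rw [mem_union, mem_filter, mem_filter, mem_ps, mem_range, mem_range]
    constructor
    · rintro ⟨h1, h2⟩
      by_cases h3 : p < w + 1
      · left; exact ⟨h3, h2⟩
      · right; exact ⟨⟨by omega, by omega⟩, h2⟩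
    · rintro (⟨h1, h2⟩ | ⟨⟨h1, h2⟩, h3⟩)
      · exact ⟨by omega, h2⟩
      · exact ⟨by omega, h3⟩
  · rw [disjoint_left]
    intro p hp hp'
    rw [mem_filter, mem_range] at hp
    rw [mem_ps] at hp'
    omega

/-- the quotient of two cut constants -/
lemma SS_quot {k : ℕ} (f : Fin k → ℤ[X]) (hf : ∀ l, Gd (f l)) (a : Fin k → ℤ) (w N : ℕ) (hw : 1 ≤ w) (h0 : p0 f ≤ w)
    (h1 : 2 * kap f ≤ w) (h : w ≤ N) :
    ∃ t : ℝ, SS f a N = SS f a w * Real.exp t ∧ |t - DD f a w N| ≤ K2 f / w := by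
  refine ⟨∑ p ∈ ps w N, Real.log (fac f a p), ?_, ?_⟩
  · rw [SS_split f a w N h, Real.exp_sum]
    congr 1
    apply prod_congr rfl
    intro p hp
    obtain ⟨⟨hp1, _⟩, hp2⟩ := mem_ps.1 hp
    rw [Real.exp_log (fac_bound f hf a p hp2 (by omega) (by omega)).1]
  · unfold DD
    rw [← sum_sub_distrib]
    refine (abs_sum_le_sum_abs _ _).trans ?_
    have hK : 0 ≤ K2 f := by unfold K2; positivity
    calc ∑ p ∈ ps w N, |Real.log (fac f a p) - (mm f a p - mb k p) / p|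
        ≤ ∑ p ∈ ps w N, K2 f * (1 / (p : ℝ) ^ 2) := by
          apply sum_le_sum
          intro p hp
          obtain ⟨⟨hp1, _⟩, hp2⟩ := mem_ps.1 hp
          rw [mul_one_div]
          exact (fac_bound f hf a p hp2 (by omega) (by omega)).2
      _ = K2 f * ∑ p ∈ ps w N, 1 / (p : ℝ) ^ 2 := by rw [mul_sum]
      _ ≤ K2 f * (1 / w) := mul_le_mul_of_nonneg_left (sum_inv_sq w N hw) hK
      _ = _ := by ring

/-- the lower bound for the constant cut at `w` -/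
lemma SS_ge {k : ℕ} (f : Fin k → ℤ[X]) (a : Fin k → ℤ) (hadm : Adm f a) (w : ℕ) :
    ∏ p ∈ (range (w + 1)).filter Nat.Prime, (1 / (p : ℝ)) ≤ SS f a w := by
  rw [SS_eq]
  apply Finset.prod_le_prod
  · intro p _; positivity
  · intro p hp
    rw [mem_filter] at hp
    have hp2 : (2 : ℝ) ≤ p := by exact_mod_cast hp.2.two_le
    have hp0 : (0 : ℝ) < p := by linarith
    have hν := hadm p hp.2
    have hν' : (nu f a p : ℝ) + 1 ≤ p := by exact_mod_cast hν
    unfold fac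
    have hy1 : 1 / (p : ℝ) ≤ 1 / 2 := one_div_le_one_div_of_le (by norm_num) hp2
    have hy0 : 0 ≤ 1 / (p : ℝ) := by positivity
    have hpos2 : 0 < 1 - 1 / (p : ℝ) := by linarith
    have h1 : (1 - 1 / (p : ℝ)) ^ k ≤ 1 := pow_le_one₀ hpos2.le (by linarith)
    have h2 : 0 < (1 - 1 / (p : ℝ)) ^ k := pow_pos hpos2 _
    have h3 : 1 / (p : ℝ) ≤ 1 - (nu f a p : ℝ) / p := by
      rw [le_sub_iff_add_le, ← add_div, div_le_one hp0]
      linarith
    rw [le_div_iff₀ h2]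
    calc 1 / (p : ℝ) * (1 - 1 / (p : ℝ)) ^ k ≤ 1 / (p : ℝ) * 1 := mul_le_mul_of_nonneg_left h1 hy0
      _ ≤ _ := by linarith

end Run7.h109.G
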